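import Mathlib
import Pool.Agent.H362CF.Flats

/-!
# Infinite excluded families with boundedly many cyclic flats

The starting result `NotFinitelyExcluded` says that none of the classes of gammoids, of strongly
base-orderable and of base-orderable matroids is of the form `C̄(M₁, …, M_k)` for a finite family.
Here the family may be infinite, with matroids of arbitrarily large rank and size: it is enough
that the numbers of cyclic flats of its members are bounded.

The matroids with certificates for all families of `n` sets form a complete class `Gn n`, which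
contains a matroid that is not base-orderable. A certificate for the family of the cyclic flats of
a matroid already represents the matroid as a gammoid, since `r(A)` is the least value of
`r(Z) + |A \ Z|` over the cyclic flats `Z`; so the members of `Gn n` with at most `n` cyclic flats
are gammoids.
-/

set_option autoImplicit false

namespace Pool.Agent.Results.MP_96faa3_co.BoundedCyclicFlats

open Set Pool.Agent.Helper442.FE Pool.Agent.H362CF

/-- `C = C̄(F)`: no matroid of the (finite or infinite) family `F` of matroids is in `C`, and every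
complete class that contains no matroid of `F` is contained in `C`. -/
def IsExcludedBy (C F : MClass) : Prop :=
  (∀ (α : Type) (M : Matroid α), F α M → ¬ C α M) ∧
    ∀ D : MClass, IsComplete D → (∀ (α : Type) (M : Matroid α), F α M → ¬ D α M) →
      ∀ (α : Type) (M : Matroid α), D α M → C α M

/-- `C = C̄(F)` for a family `F` of finite matroids, possibly infinite, the numbers of cyclic flats
of whose members are bounded. -/
def BoundedlyExcluded (C : MClass) : Prop :=
  ∃ (F : MClass) (m : ℕ), (∀ (α : Type) (M : Matroid α), F α M → M.E.Finite ∧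
    {Z | IsCyclicFlat M Z}.ncard ≤ m) ∧ IsExcludedBy C F

theorem boundedly_of_finitely {C : MClass} (h : FinitelyExcluded C) : BoundedlyExcluded C := by
  obtain ⟨k, β, F, hF, hav, hmax⟩ := h
  refine ⟨fun α M => ∃ i, (⟨β i, F i⟩ : Σ α : Type, Matroid α) = ⟨α, M⟩,
    Finset.univ.sup fun i => {Z | IsCyclicFlat (F i) Z}.ncard, ?_, ?_, ?_⟩
  · rintro α M ⟨i, hi⟩
    cases hi
    exact ⟨hF i, Finset.le_sup (f := fun i => {Z | IsCyclicFlat (F i) Z}.ncard) (Finset.mem_univ i)⟩
  · rintro α M ⟨i, hi⟩
    cases hi
    exact hav i
  · intro D hD hav'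
    exact hmax D hD fun i => hav' _ _ ⟨i, rfl⟩

theorem not_boundedlyExcluded {C : MClass} (h1 : ∀ (α : Type) (M : Matroid α), Gammoid α M → C α M)
    (h2 : ∀ (α : Type) (M : Matroid α), C α M → BO α M) : ¬ BoundedlyExcluded C := by
  rintro ⟨F, m, hF, hav, hmax⟩
  have h3 : ∀ (α : Type) (M : Matroid α), F α M → ¬ Gn m α M := fun α M hM hG =>
    hav α M hM (h1 _ _ (gammoid_of_gn' (hF α M hM).1 (hF α M hM).2 hG))
  have hb : 1 ≤ m + 1 := Nat.le_add_left 1 m
  have h4 : Gn m _ (El.W (m + 1) hb) := El.W_gn (by omega) hb
  exact El.W_not_bo hb (h2 _ _ (hmax (Gn m) (gn_isComplete m) h3 _ _ h4))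

theorem gammoid_sbo {α : Type} {M : Matroid α} (hM : Gammoid α M) : SBO α M := by
  refine ⟨hM.finite, ?_⟩
  obtain ⟨τ, hτ, G, V, A, N, hN, hiso⟩ := hM
  exact sbo_iso hiso (induced_sbo hN)

theorem sbo_bo {α : Type} {M : Matroid α} (h : SBO α M) : BO α M := by
  refine ⟨h.1, fun B₁ B₂ h1 h2 => ?_⟩
  obtain ⟨φ, hφ, hX⟩ := h.2 B₁ B₂ h1 h2
  exact ⟨φ, hφ, fun X hXB _ => hX X hXB⟩

/-- None of the three classes of gammoids, of strongly base-orderable matroids and of base-orderable
matroids is of the form `C̄(F)` for a finite or infinite family `F` of matroids whose numbers of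
cyclic flats are bounded, in particular for a finite family; nor is any other nonempty complete
class of base-orderable matroids. -/
theorem result :
    (∀ C : MClass, FinitelyExcluded C → BoundedlyExcluded C) ∧
    ¬ BoundedlyExcluded Gammoid ∧ ¬ BoundedlyExcluded SBO ∧ ¬ BoundedlyExcluded BO ∧
    ∀ C : MClass, IsComplete C → (∃ (α : Type) (M : Matroid α), C α M) →
      (∀ (α : Type) (M : Matroid α), C α M → BO α M) → ¬ BoundedlyExcluded C :=
  ⟨fun _ h => boundedly_of_finitely h,
    not_boundedlyExcluded (fun _ _ h => h) (fun _ _ h => sbo_bo (gammoid_sbo h)),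
    not_boundedlyExcluded (fun _ _ h => gammoid_sbo h) (fun _ _ h => sbo_bo h),
    not_boundedlyExcluded (fun _ _ h => sbo_bo (gammoid_sbo h)) (fun _ _ h => h),
    fun _ hC hne hBO => not_boundedlyExcluded (fun _ _ h => hC.gammoid hne h) hBO⟩

end Pool.Agent.Results.MP_96faa3_co.BoundedCyclicFlats
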